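import Mathlib
import Pool.Agent.Y263.GF.Alg
import Pool.Agent.Y263.LF.LocAlg

/-!
Characters of `H^∞(B)` and functions whose complex conjugates are asymptotic to bounded holomorphic
functions at a boundary point.
-/

set_option autoImplicit false
set_option linter.unusedSectionVars false

open MeasureTheory Metric Set Filter Topology Complex

namespace Pool.Agent.K9h23.Qc

open Pool.Agent.Y263.LF (Hb evH evH_le Hb_ext mkH SR CA Tup alg_ct base_point exists_char linH)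
open Pool.Agent.Y263.GF (SF tup_SF lin_SF)

variable {X : Type} [NormedAddCommGroup X] [InnerProductSpace ℂ X] [FiniteDimensional ℂ X]

/-- approach to the point `p` from the ball -/
def nr (p : X) : Filter (ball (0 : X) 1) := comap (Subtype.val : ball (0 : X) 1 → X) (𝓝 p)

/-- `q` is quasicontinuous at `p`: near `p` its conjugate is within any `ε` of bounded holomorphic
functions -/
def QA (p : X) : Set (Hb X) :=
  {q | ∀ ε : ℝ, 0 < ε → ∃ F : Hb X, ∀ᶠ z in nr p, ‖evH z F - starRingEnd ℂ (evH z q)‖ ≤ ε}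

/-- the property of `p` in `base_point` -/
def Base (φ : WeakDual.characterSpace ℂ (Hb X)) (p : X) : Prop :=
  ∀ G : Hb X, ∃ ℱ : Filter (ball (0 : X) 1), ℱ.NeBot ∧
    Tendsto (fun z : ball (0 : X) 1 => (z : X)) ℱ (𝓝 p) ∧
    ∀ a ∈ CA (SF X) G, Tendsto (fun z => evH z a) ℱ (𝓝 (φ a))

theorem self_mem (G : Hb X) : G ∈ CA (SF X) G :=
  Subalgebra.le_topologicalClosure _ (Algebra.subset_adjoin (mem_insert _ _))

theorem SR_mem (G : Hb X) {h : Hb X} (hh : h ∈ SR (SF X)) : h ∈ CA (SF X) G :=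
  Subalgebra.le_topologicalClosure _ (Algebra.subset_adjoin (mem_insert_of_mem _ hh))

theorem le_nr {ℱ : Filter (ball (0 : X) 1)} {p : X}
    (h : Tendsto (fun z : ball (0 : X) 1 => (z : X)) ℱ (𝓝 p)) : ℱ ≤ nr p := tendsto_iff_comap.1 h

theorem small {φ : WeakDual.characterSpace ℂ (Hb X)} {p : X} (hB : Base φ p) {b : Hb X} {ε : ℝ}
    (hb : ∀ᶠ z in nr p, ‖evH z b‖ ≤ ε) : ‖φ b‖ ≤ ε := by
  obtain ⟨ℱ, hne, hz, ha⟩ := hB b
  exact le_of_tendsto (ha b (self_mem b)).norm (le_nr hz hb)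

/-- elements of the algebra depend on finitely many quasicontinuous functions -/
theorem fin_dep {φ : WeakDual.characterSpace ℂ (Hb X)} {p : X} {v : Hb X}
    (hv : v ∈ Algebra.adjoin ℂ (SR (SF X) ∪ QA p)) :
    ∃ T : Finset (Hb X), (∀ q ∈ T, q ∈ QA p) ∧ ∀ ℱ : Filter (ball (0 : X) 1),
      (∀ h ∈ SR (SF X), Tendsto (fun z => evH z h) ℱ (𝓝 (φ h))) →
      (∀ q ∈ T, Tendsto (fun z => evH z q) ℱ (𝓝 (φ q))) →
      Tendsto (fun z => evH z v) ℱ (𝓝 (φ v)) := by
  classical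
  induction hv using Algebra.adjoin_induction with
  | mem x hx =>
    rcases hx with hx | hx
    · exact ⟨∅, by simp, fun ℱ h1 _ => h1 x hx⟩
    · refine ⟨{x}, by simpa using hx, fun ℱ _ h2 => h2 x (by simp)⟩
  | algebraMap r =>
    refine ⟨∅, by simp, fun ℱ _ _ => ?_⟩
    have h2 : φ (algebraMap ℂ (Hb X) r) = r := by
      have := AlgHomClass.commutes φ r
      simpa using this
    simp only [AlgHom.commutes, h2]
    exact tendsto_const_nhds
  | add x y _ _ hx hy =>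
    obtain ⟨T1, t1, t2⟩ := hx
    obtain ⟨T2, s1, s2⟩ := hy
    refine ⟨T1 ∪ T2, ?_, fun ℱ h1 h2 => ?_⟩
    · intro q hq
      rcases Finset.mem_union.1 hq with h | h
      · exact t1 q h
      · exact s1 q h
    · have := (t2 ℱ h1 fun q hq => h2 q (Finset.mem_union_left _ hq)).add
        (s2 ℱ h1 fun q hq => h2 q (Finset.mem_union_right _ hq))
      simpa [map_add] using this
  | mul x y _ _ hx hy =>
    obtain ⟨T1, t1, t2⟩ := hx
    obtain ⟨T2, s1, s2⟩ := hy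
    refine ⟨T1 ∪ T2, ?_, fun ℱ h1 h2 => ?_⟩
    · intro q hq
      rcases Finset.mem_union.1 hq with h | h
      · exact t1 q h
      · exact s1 q h
    · have := (t2 ℱ h1 fun q hq => h2 q (Finset.mem_union_left _ hq)).mul
        (s2 ℱ h1 fun q hq => h2 q (Finset.mem_union_right _ hq))
      simpa [map_mul] using this

/-- the functions with affine fibres are close to the values of the character -/
noncomputable def Sf (φ : WeakDual.characterSpace ℂ (Hb X)) (p : X) : Filter (ball (0 : X) 1) :=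
  nr p ⊓ ⨅ h ∈ SR (SF X), comap (fun z => evH z h) (𝓝 (φ h))

/-- finitely many quasicontinuous functions are at the same time nearly equal to the values of the
character -/
theorem joint_eps {φ : WeakDual.characterSpace ℂ (Hb X)} {p : X} (hB : Base φ p)
    (T : Finset (Hb X)) (hT : ∀ q ∈ T, q ∈ QA p) {ε : ℝ} (hε : 0 < ε) :
    ∃ ℱ : Filter (ball (0 : X) 1), ℱ.NeBot ∧ ℱ ≤ Sf φ p ∧
      ∀ᶠ z in ℱ, ∑ q ∈ T, ‖evH z q - φ q‖ ^ 2 < ε := by
  classical
  set A : ℝ := ∑ q ∈ T, (‖q‖ + ‖φ q‖) with hA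
  have hA0 : 0 ≤ A := Finset.sum_nonneg fun q _ => by positivity
  set η : ℝ := ε / (2 * (A + 1)) with hη
  have hη0 : 0 < η := by positivity
  have hT' : ∀ q ∈ T, ∃ F : Hb X, ∀ᶠ z in nr p, ‖evH z F - starRingEnd ℂ (evH z q)‖ ≤ η :=
    fun q hq => hT q hq η hη0
  choose! F hF using hT'
  have heva : ∀ (z : ball (0 : X) 1) (r : ℂ), evH z (algebraMap ℂ (Hb X) r) = r := fun z r => by
    have := (evH z).commutes r
    simpa using this
  have hφa : ∀ r : ℂ, φ (algebraMap ℂ (Hb X) r) = r := fun r => by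
    have := AlgHomClass.commutes φ r
    simpa using this
  set k : Hb X := ∑ q ∈ T, (q - algebraMap ℂ (Hb X) (φ q)) *
    (F q - algebraMap ℂ (Hb X) (starRingEnd ℂ (φ q))) with hk
  have hφk : φ k = 0 := by
    rw [hk, map_sum]
    refine Finset.sum_eq_zero fun q _ => ?_
    rw [map_mul, map_sub, hφa, sub_self, zero_mul]
  obtain ⟨ℱ, hne, hz, ha⟩ := hB k
  refine ⟨ℱ, hne, ?_, ?_⟩
  · refine le_inf (le_nr hz) (le_iInf fun h => le_iInf fun hh => ?_)
    exact tendsto_iff_comap.1 (ha h (SR_mem k hh))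
  have h1 : Tendsto (fun z => ‖evH z k‖) ℱ (𝓝 0) := by
    have := ha k (self_mem k)
    rw [hφk] at this
    simpa using this.norm
  have h1' : ∀ᶠ z in ℱ, ‖evH z k‖ < ε / 2 := h1.eventually (gt_mem_nhds (by positivity))
  have h2 : ∀ᶠ z in ℱ, ∀ q ∈ T, ‖evH z (F q) - starRingEnd ℂ (evH z q)‖ ≤ η := by
    rw [Filter.eventually_all_finset]
    exact fun q hq => le_nr hz (hF q hq)
  filter_upwards [h1', h2] with z hz1 hz2
  have h3 : ((∑ q ∈ T, ‖evH z q - φ q‖ ^ 2 : ℝ) : ℂ) = evH z k -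
      ∑ q ∈ T, (evH z q - φ q) * (evH z (F q) - starRingEnd ℂ (evH z q)) := by
    rw [hk, map_sum, ← Finset.sum_sub_distrib, Complex.ofReal_sum]
    refine Finset.sum_congr rfl fun q _ => ?_
    rw [map_mul, map_sub, map_sub, heva, heva]
    have h4 : ((‖evH z q - φ q‖ ^ 2 : ℝ) : ℂ) =
        (evH z q - φ q) * starRingEnd ℂ (evH z q - φ q) := by
      rw [Complex.mul_conj, Complex.normSq_eq_norm_sq]
    rw [h4, map_sub]
    ring
  have h4 : 0 ≤ ∑ q ∈ T, ‖evH z q - φ q‖ ^ 2 := Finset.sum_nonneg fun q _ => by positivity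
  have h5 : ∑ q ∈ T, ‖evH z q - φ q‖ ^ 2 = ‖((∑ q ∈ T, ‖evH z q - φ q‖ ^ 2 : ℝ) : ℂ)‖ := by
    rw [Complex.norm_real, Real.norm_of_nonneg h4]
  rw [h5, h3]
  have h6 : ‖∑ q ∈ T, (evH z q - φ q) * (evH z (F q) - starRingEnd ℂ (evH z q))‖ ≤ A * η := by
    rw [hA, Finset.sum_mul]
    refine norm_sum_le_of_le _ fun q hq => ?_
    rw [norm_mul]
    refine mul_le_mul ?_ (hz2 q hq) (norm_nonneg _) (by positivity)
    exact (norm_sub_le _ _).trans (by gcongr; exact evH_le z q)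
  have h7 : A * η ≤ ε / 2 := by
    rw [hη, show A * (ε / (2 * (A + 1))) = (A / (A + 1)) * (ε / 2) by field_simp]
    have : A / (A + 1) ≤ 1 := by
      rw [div_le_one (by positivity)]
      linarith
    nlinarith
  calc _ ≤ ‖evH z k‖ + ‖∑ q ∈ T, (evH z q - φ q) * (evH z (F q) - starRingEnd ℂ (evH z q))‖ :=
        norm_sub_le _ _
    _ < ε := by linarith

/-- a filter along which finitely many quasicontinuous functions and all functions with affine
fibres converge to the values of the character -/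
theorem joint {φ : WeakDual.characterSpace ℂ (Hb X)} {p : X} (hB : Base φ p) (T : Finset (Hb X))
    (hT : ∀ q ∈ T, q ∈ QA p) :
    ∃ ℱ : Filter (ball (0 : X) 1), ℱ.NeBot ∧
      Tendsto (fun z : ball (0 : X) 1 => (z : X)) ℱ (𝓝 p) ∧
      (∀ h ∈ SR (SF X), Tendsto (fun z => evH z h) ℱ (𝓝 (φ h))) ∧
      ∀ q ∈ T, Tendsto (fun z => evH z q) ℱ (𝓝 (φ q)) := by
  classical
  set s : ball (0 : X) 1 → ℝ := fun z => ∑ q ∈ T, ‖evH z q - φ q‖ ^ 2 with hs
  have hs0 : ∀ z, 0 ≤ s z := fun z => Finset.sum_nonneg fun q _ => by positivity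
  refine ⟨Sf φ p ⊓ comap s (𝓝 0), ?_, ?_, ?_, ?_⟩
  · rw [Filter.inf_neBot_iff]
    intro A hA C hC
    obtain ⟨U, hU, hUC⟩ := hC
    obtain ⟨ε, hε, hεU⟩ := Metric.mem_nhds_iff.1 hU
    obtain ⟨ℱ, hne, hle, hev⟩ := joint_eps hB T hT hε
    have hA' : ∀ᶠ z in ℱ, z ∈ A := hle hA
    obtain ⟨z, hz1, hz2⟩ := (hA'.and hev).exists
    refine ⟨z, hz1, hUC (hεU ?_)⟩
    rw [mem_ball_zero_iff, Real.norm_of_nonneg (hs0 z)]
    exact hz2
  · have h1 : Sf φ p ⊓ comap s (𝓝 0) ≤ nr p := inf_le_left.trans inf_le_left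
    exact tendsto_iff_comap.2 h1
  · intro h hh
    have h1 : Sf φ p ⊓ comap s (𝓝 0) ≤ comap (fun z => evH z h) (𝓝 (φ h)) :=
      inf_le_left.trans (inf_le_right.trans (iInf_le_of_le h (iInf_le _ hh)))
    exact tendsto_iff_comap.2 h1
  · intro q hq
    have h4 : Tendsto s (Sf φ p ⊓ comap s (𝓝 0)) (𝓝 0) := tendsto_iff_comap.2 inf_le_right
    have h5 : Tendsto (fun z => ‖evH z q - φ q‖ ^ 2) (Sf φ p ⊓ comap s (𝓝 0)) (𝓝 0) := by
      refine squeeze_zero (fun z => by positivity) (fun z => ?_) h4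
      exact Finset.single_le_sum (f := fun q => ‖evH z q - φ q‖ ^ 2) (fun _ _ => by positivity) hq
    have h6 : Tendsto (fun z => ‖evH z q - φ q‖) (Sf φ p ⊓ comap s (𝓝 0)) (𝓝 0) := by
      have h7 := (Real.continuous_sqrt.tendsto 0).comp h5
      rw [Real.sqrt_zero] at h7
      refine h7.congr fun z => ?_
      simp only [Function.comp]
      exact Real.sqrt_sq (norm_nonneg _)
    rw [← tendsto_sub_nhds_zero_iff]
    exact tendsto_zero_iff_norm_tendsto_zero.2 h6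

/-- **Local criterion.** -/
theorem crit {N : ℕ} (F : Fin N → Hb X) (h0 : ∀ z, ∃ j, evH z (F j) ≠ 0)
    (hp : ∀ p : X, ‖p‖ = 1 → ∃ (S : Finset (Fin N)) (c : ℝ), 0 < c ∧
      (∀ᶠ z in nr p, c ≤ ∑ j ∈ S, ‖evH z (F j)‖) ∧
      ∀ ε : ℝ, 0 < ε → ∀ j ∈ S, ∃ v ∈ Algebra.adjoin ℂ (SR (SF X) ∪ QA p),
        ∀ᶠ z in nr p, ‖evH z (F j) - evH z v‖ ≤ ε) :
    ∃ g : Fin N → Hb X, ∑ j, F j * g j = 1 := by
  classical
  by_contra hno
  obtain ⟨φ, hφ⟩ := exists_char F hno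
  obtain ⟨p, hp1, hB⟩ := base_point (tup_SF (X := X)) (lin_SF (X := X)) φ
  rcases lt_or_eq_of_le hp1 with hlt | heq
  · have hpb : p ∈ ball (0 : X) 1 := mem_ball_zero_iff.2 hlt
    obtain ⟨j, hj⟩ := h0 ⟨p, hpb⟩
    apply hj
    obtain ⟨ℱ, hne, hz, ha⟩ := hB (F j)
    have h1 := ha _ (self_mem (F j))
    rw [hφ j] at h1
    have h2 : Tendsto (fun z : ball (0 : X) 1 => evH z (F j)) ℱ (𝓝 (evH ⟨p, hpb⟩ (F j))) := by
      have h3 : Tendsto (fun z : ball (0 : X) 1 => z) ℱ (𝓝 (⟨p, hpb⟩ : ball (0 : X) 1)) := by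
        rw [tendsto_subtype_rng]
        exact hz
      exact ((F j : BoundedContinuousFunction (ball (0 : X) 1) ℂ).continuous.tendsto _).comp h3
    exact tendsto_nhds_unique h2 h1
  · obtain ⟨S, c, hc, hlow, hS⟩ := hp p heq
    set ε : ℝ := c / (8 * (S.card + 1)) with hε
    have hε0 : 0 < ε := by positivity
    choose! v hv1 hv2 using hS ε hε0
    have hfd : ∀ j ∈ S, _ := fun j hj => fin_dep (φ := φ) (hv1 j hj)
    choose! T hT1 hT2 using hfd
    obtain ⟨ℱ, hne, hz, h1, h2⟩ := joint hB (S.biUnion T) (fun q hq => by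
      obtain ⟨j, hj, hq2⟩ := Finset.mem_biUnion.1 hq
      exact hT1 j hj q hq2)
    have h3 : ∀ j ∈ S, Tendsto (fun z => evH z (v j)) ℱ (𝓝 (φ (v j))) := fun j hj =>
      hT2 j hj ℱ h1 fun q hq => h2 q (Finset.mem_biUnion.2 ⟨j, hj, hq⟩)
    have h4 : ∀ j ∈ S, ‖φ (v j)‖ ≤ ε := by
      intro j hj
      have h5 : ‖φ (F j - v j)‖ ≤ ε := small hB (by
        filter_upwards [hv2 j hj] with z hz2
        rw [map_sub]
        exact hz2)
      rw [map_sub, hφ j, zero_sub, norm_neg] at h5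
      exact h5
    have h5 : ∀ᶠ z in ℱ, ∀ j ∈ S, ‖evH z (F j)‖ ≤ 3 * ε := by
      rw [Filter.eventually_all_finset]
      intro j hj
      have h6 := h3 j hj
      rw [Metric.tendsto_nhds] at h6
      filter_upwards [h6 ε hε0, le_nr hz (hv2 j hj)] with z h7 h8
      rw [dist_eq_norm] at h7
      have e : evH z (F j) = (evH z (F j) - evH z (v j)) + (evH z (v j) - φ (v j)) + φ (v j) := by
        ring
      calc ‖evH z (F j)‖ = ‖(evH z (F j) - evH z (v j)) + (evH z (v j) - φ (v j)) + φ (v j)‖ := by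
            rw [← e]
        _ ≤ ‖evH z (F j) - evH z (v j)‖ + ‖evH z (v j) - φ (v j)‖ + ‖φ (v j)‖ := norm_add₃_le
        _ ≤ 3 * ε := by linarith [h4 j hj]
    obtain ⟨z, hz1, hz2⟩ := (h5.and (le_nr hz hlow)).exists
    have h6 : ∑ j ∈ S, ‖evH z (F j)‖ ≤ ∑ _j ∈ S, 3 * ε := Finset.sum_le_sum hz1
    rw [Finset.sum_const, nsmul_eq_mul] at h6
    have h7 : (S.card : ℝ) * (3 * ε) < c := by
      have hS0 : (0 : ℝ) ≤ S.card := Nat.cast_nonneg _
      calc (S.card : ℝ) * (3 * ε) ≤ (S.card + 1) * (3 * ε) := by gcongr; linarith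
        _ = 3 / 8 * c := by rw [hε]; field_simp
        _ < c := by linarith
    linarith

end Pool.Agent.K9h23.Qc
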