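import Mathlib
import Pool.Agent.H136R3.WA.Pompeiu
import Pool.Agent.H720R2.HP.Kern

/-!
The theorem of Hartogs and Rosenthal for the function `conj w`: on a compact set of measure zero it is
uniformly approximated by functions holomorphic near the set.
-/

set_option autoImplicit false

open MeasureTheory Metric Set Filter Topology Complex
open scoped ComplexConjugate

namespace Pool.Agent.K9h23.Qc

/-- the kernel `1/|w - z|` over a set of small measure -/
theorem kern_small {U : Set ℂ} (hUm : MeasurableSet U) {v : ℝ} (hv0 : 0 ≤ v)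
    (hv : volume U ≤ ENNReal.ofReal v) (w : ℂ) {ρ : ℝ} (hρ : 0 < ρ) :
    IntegrableOn (fun z : ℂ => ‖w - z‖⁻¹) U ∧
      ∫ z in U, ‖w - z‖⁻¹ ≤ 2 * Real.pi * ρ + v / ρ := by
  have hfin : volume U < ⊤ := hv.trans_lt ENNReal.ofReal_lt_top
  have h1 : IntegrableOn (fun z : ℂ => ‖w - z‖⁻¹) (U ∩ ball w ρ) :=
    (Pool.Agent.H720R2.HP.inv_ball_int w ρ).mono_set inter_subset_right
  have hbd : ∀ z ∈ U \ ball w ρ, ‖w - z‖⁻¹ ≤ ρ⁻¹ := by
    intro z hz
    have h2 : ρ ≤ ‖w - z‖ := by
      have := hz.2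
      rw [mem_ball, not_lt, dist_comm, dist_eq_norm] at this
      exact this
    exact inv_anti₀ hρ h2
  have hm2 : MeasurableSet (U \ ball w ρ) := hUm.diff measurableSet_ball
  have hf2 : volume (U \ ball w ρ) < ⊤ := (measure_mono sdiff_subset).trans_lt hfin
  have hmeas : Measurable fun z : ℂ => ‖w - z‖⁻¹ := by fun_prop
  have h2 : IntegrableOn (fun z : ℂ => ‖w - z‖⁻¹) (U \ ball w ρ) := by
    refine Integrable.mono' (g := fun _ => ρ⁻¹) (integrableOn_const hf2.ne) hmeas.aestronglyMeasurable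
      ?_
    filter_upwards [ae_restrict_mem hm2] with z hz
    rw [Real.norm_of_nonneg (by positivity)]
    exact hbd z hz
  have hU : U = (U ∩ ball w ρ) ∪ (U \ ball w ρ) := (inter_union_sdiff U _).symm
  have hint : IntegrableOn (fun z : ℂ => ‖w - z‖⁻¹) U := by
    rw [hU]
    exact h1.union h2
  refine ⟨hint, ?_⟩
  have h3 : ∫ z in U, ‖w - z‖⁻¹ = (∫ z in U ∩ ball w ρ, ‖w - z‖⁻¹) +
      ∫ z in U \ ball w ρ, ‖w - z‖⁻¹ := by
    rw [integral_inter_add_sdiff measurableSet_ball hint]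
  rw [h3]
  have h4 : ∫ z in U ∩ ball w ρ, ‖w - z‖⁻¹ ≤ 2 * Real.pi * ρ := by
    rw [← Pool.Agent.H720R2.HP.inv_ball_eq w hρ.le]
    refine setIntegral_mono_set (Pool.Agent.H720R2.HP.inv_ball_int w ρ) ?_ ?_
    · exact Eventually.of_forall fun ζ => by positivity
    · exact inter_subset_right.eventuallyLE
  have h5 : ∫ z in U \ ball w ρ, ‖w - z‖⁻¹ ≤ v / ρ := by
    have h6 : ∫ z in U \ ball w ρ, ‖w - z‖⁻¹ ≤ ∫ _z in U \ ball w ρ, ρ⁻¹ :=
      setIntegral_mono_on h2 (integrableOn_const hf2.ne) hm2 hbd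
    rw [setIntegral_const, smul_eq_mul] at h6
    refine h6.trans ?_
    rw [div_eq_mul_inv]
    refine mul_le_mul_of_nonneg_right ?_ (by positivity)
    rw [Measure.real, ← ENNReal.toReal_ofReal hv0]
    exact ENNReal.toReal_mono ENNReal.ofReal_ne_top ((measure_mono sdiff_subset).trans hv)
  linarith

/-- **Hartogs–Rosenthal** for `conj`. -/
theorem hartogs_rosenthal {K : Set ℂ} (hK : IsCompact K) (h0 : volume K = 0) {ε : ℝ}
    (hε : 0 < ε) : ∃ (U : Set ℂ) (F : ℂ → ℂ), IsOpen U ∧ K ⊆ U ∧ DifferentiableOn ℂ F U ∧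
      ∀ w ∈ U, ‖F w - conj w‖ ≤ ε := by
  obtain ⟨R, hR⟩ := hK.isBounded.subset_ball (0 : ℂ)
  set ρ : ℝ := ε / 4 with hρ
  have hρ0 : 0 < ρ := by positivity
  set v : ℝ := ρ * ε with hv
  have hv0 : 0 < v := by positivity
  obtain ⟨U0, hKU, hU0, hvol⟩ := Set.exists_isOpen_lt_of_lt K (ENNReal.ofReal v)
    (by rw [h0]; exact ENNReal.ofReal_pos.2 hv0)
  set U : Set ℂ := U0 ∩ ball 0 R with hU
  have hUo : IsOpen U := hU0.inter isOpen_ball
  have hUm : MeasurableSet U := hUo.measurableSet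
  have hUv : volume U ≤ ENNReal.ofReal v := (measure_mono inter_subset_left).trans hvol.le
  set W : Set ℂ := ball 0 R \ U with hW
  have hWm : MeasurableSet W := measurableSet_ball.diff hUm
  have hWf : volume W < ⊤ := (measure_mono sdiff_subset).trans_lt measure_ball_lt_top
  refine ⟨U, fun w => (Real.pi : ℂ)⁻¹ * ∫ z in W, (w - z)⁻¹, hUo, subset_inter hKU hR, ?_, ?_⟩
  · intro w0 hw0
    obtain ⟨s, hs, hsub⟩ := Metric.isOpen_iff.1 hUo w0 hw0
    have hs2 : 0 < s / 2 := by positivity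
    have hfar : ∀ z ∈ W, ∀ w ∈ ball w0 (s / 2), s / 2 ≤ ‖w - z‖ := by
      intro z hz w hw
      by_contra hcon
      push Not at hcon
      apply hz.2
      apply hsub
      rw [mem_ball, dist_eq_norm] at hw ⊢
      have e : z - w0 = (z - w) + (w - w0) := by ring
      calc ‖z - w0‖ ≤ ‖z - w‖ + ‖w - w0‖ := by rw [e]; exact norm_add_le _ _
        _ < s := by rw [norm_sub_rev z w]; linarith
    have hd : HasDerivAt (fun w => ∫ z in W, (w - z)⁻¹) (∫ z in W, -((w0 - z) ^ 2)⁻¹) w0 := by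
      refine (hasDerivAt_integral_of_dominated_loc_of_deriv_le (μ := volume.restrict W)
        (F := fun (w z : ℂ) => (w - z)⁻¹) (F' := fun (w z : ℂ) => -((w - z) ^ 2)⁻¹)
        (bound := fun _ => ((s / 2) ^ 2)⁻¹) (ball_mem_nhds w0 hs2) ?_ ?_ ?_ ?_ ?_ ?_).2
      · exact Eventually.of_forall fun w =>
          (by fun_prop : Measurable fun z : ℂ => (w - z)⁻¹).aestronglyMeasurable
      · refine Integrable.mono' (g := fun _ => (s / 2)⁻¹) (integrableOn_const hWf.ne)
          (by fun_prop : Measurable fun z : ℂ => (w0 - z)⁻¹).aestronglyMeasurable ?_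
        filter_upwards [ae_restrict_mem hWm] with z hz
        rw [norm_inv]
        exact inv_anti₀ hs2 (hfar z hz w0 (mem_ball_self hs2))
      · exact (by fun_prop : Measurable fun z : ℂ => -((w0 - z) ^ 2)⁻¹).aestronglyMeasurable
      · filter_upwards [ae_restrict_mem hWm] with z hz w hw
        rw [norm_neg, norm_inv, norm_pow]
        exact inv_anti₀ (by positivity) (by gcongr; exact hfar z hz w hw)
      · exact integrableOn_const hWf.ne
      · filter_upwards [ae_restrict_mem hWm] with z hz w hw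
        have hne : w - z ≠ 0 := by
          rw [← norm_pos_iff]
          exact hs2.trans_le (hfar z hz w hw)
        have h1 : HasDerivAt (fun w : ℂ => w - z) 1 w := (hasDerivAt_id w).sub_const z
        have h2 := h1.inv hne
        have h3 : (-1 : ℂ) / (w - z) ^ 2 = -((w - z) ^ 2)⁻¹ := by ring
        rw [h3] at h2
        exact h2
    exact (hd.differentiableAt.const_mul _).differentiableWithinAt
  · intro w hw
    have hwR : ‖w‖ < R := by simpa using hw.2
    have h1 := Pool.Agent.H136R3.WA.pompeiu hwR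
    have hRpos : 0 < R := (norm_nonneg _).trans_lt hwR
    have hint := Pool.Agent.H136R3.WA.integrable_inv_ball w R hRpos
    have h2 : ∫ z in ball (0 : ℂ) R, (w - z)⁻¹ = (∫ z in U, (w - z)⁻¹) + ∫ z in W, (w - z)⁻¹ := by
      have h3 := integral_inter_add_sdiff hUm hint
      rw [inter_eq_self_of_subset_right (inter_subset_right : U ⊆ ball 0 R)] at h3
      exact h3.symm
    have hpi : (Real.pi : ℂ) ≠ 0 := by exact_mod_cast Real.pi_ne_zero
    have h3 : (Real.pi : ℂ)⁻¹ * (∫ z in W, (w - z)⁻¹) - conj w =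
        -((Real.pi : ℂ)⁻¹ * ∫ z in U, (w - z)⁻¹) := by
      have h4 : conj w = (Real.pi : ℂ)⁻¹ * ∫ z in ball (0 : ℂ) R, (w - z)⁻¹ := by
        rw [h1]
        field_simp
      rw [h4, h2]
      ring
    rw [h3, norm_neg, norm_mul, norm_inv, Complex.norm_real, Real.norm_of_nonneg Real.pi_pos.le]
    obtain ⟨-, h5⟩ := kern_small hUm hv0.le hUv w hρ0
    have h6 : ‖∫ z in U, (w - z)⁻¹‖ ≤ ∫ z in U, ‖w - z‖⁻¹ := by
      refine (norm_integral_le_integral_norm _).trans (le_of_eq ?_)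
      simp only [norm_inv]
    have h7 : v / ρ = ε := by rw [hv]; field_simp
    have hpi0 := Real.pi_pos
    have h8 : ‖∫ z in U, (w - z)⁻¹‖ ≤ 2 * Real.pi * (ε / 4) + ε := by
      rw [h7, hρ] at h5
      exact h6.trans h5
    rw [inv_mul_le_iff₀ hpi0]
    have h9 := Real.pi_gt_three
    nlinarith

end Pool.Agent.K9h23.Qc
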