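import Mathlib
import Pool.Agent.K9h23.Qc.Crit
import Pool.Agent.K9h23.Qc.HR
import Pool.Agent.TH310.Cor.LG2

/-!
Quasicontinuity at a boundary point: the local condition, null cluster sets, and the criterion for
functions on the ball of `ℂ^n`.
-/

set_option autoImplicit false
set_option linter.unusedSectionVars false

open MeasureTheory Metric Set Filter Topology Complex

namespace Pool.Agent.K9h23.Qc

open Pool.Agent.Y263.LF (Hb evH evH_le Hb_ext mkH SR CA Tup alg_ct base_point exists_char linH)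
open Pool.Agent.Y263.GF (SF tup_SF lin_SF AD AF)

abbrev V (n : ℕ) := EuclideanSpace ℂ (Fin n)

/-- bounded holomorphic functions on the ball -/
def BH {n : ℕ} (f : V n → ℂ) : Prop :=
  DifferentiableOn ℂ f (ball 0 1) ∧ ∃ M : ℝ, ∀ z ∈ ball (0 : V n) 1, ‖f z‖ ≤ M

/-- near `p` the conjugate of `q` is within any `ε` of functions holomorphic near `p` -/
def Quasi {n : ℕ} (p : V n) (q : V n → ℂ) : Prop :=
  ∀ ε : ℝ, 0 < ε → ∃ (O : Set (V n)) (F : V n → ℂ), O ∈ 𝓝 p ∧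
    DifferentiableOn ℂ F (ball 0 1 ∩ O) ∧
    ∀ z ∈ ball (0 : V n) 1 ∩ O, ‖F z - starRingEnd ℂ (q z)‖ ≤ ε

def HasAffineFibres {n : ℕ} (ψ : V n → ℂ) : Prop :=
  DifferentiableOn ℂ ψ (ball 0 1) ∧ (∀ z ∈ ball (0 : V n) 1, ‖ψ z‖ < 1) ∧
    ∀ z ∈ ball (0 : V n) 1, ∀ z' ∈ ball (0 : V n) 1, ψ z' = ψ z ↔ fderiv ℂ ψ z (z' - z) = 0

/-- functions of one map with affine fibres -/
def Fib {n : ℕ} : Set (V n → ℂ) :=
  {f | ∃ (u : ℂ → ℂ) (ψ : V n → ℂ), DifferentiableOn ℂ u (ball 0 1) ∧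
    (∃ M : ℝ, ∀ w ∈ ball (0 : ℂ) 1, ‖u w‖ ≤ M) ∧ HasAffineFibres ψ ∧ f = fun z => u (ψ z)}

variable {n : ℕ}

theorem nr_nhdsWithin {p : V n} {P : V n → Prop} :
    (∀ᶠ z in 𝓝[ball 0 1] p, P z) ↔ ∀ᶠ z : ball (0 : V n) 1 in nr p, P z := by
  rw [nr, eventually_comap, eventually_nhdsWithin_iff]
  constructor
  · intro h
    filter_upwards [h] with z hz w hw
    rw [hw]
    exact hz (hw ▸ w.2)
  · intro h
    filter_upwards [h] with z hz hzb
    exact hz ⟨z, hzb⟩ rfl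

/-- bounded holomorphic functions near `p` are asymptotic to bounded holomorphic functions -/
theorem loc_glob {p : V n} (hp : ‖p‖ = 1) {O : Set (V n)} (hO : O ∈ 𝓝 p) {F : V n → ℂ}
    (hF : DifferentiableOn ℂ F (ball 0 1 ∩ O)) {M : ℝ} (hM : ∀ z ∈ ball (0 : V n) 1 ∩ O, ‖F z‖ ≤ M) :
    ∃ G : Hb (V n), ∀ ε : ℝ, 0 < ε → ∀ᶠ z in nr p, ‖evH z G - F z‖ ≤ ε := by
  obtain ⟨s, hs, hsO⟩ := Metric.mem_nhds_iff.1 hO
  set η : ℝ := s ^ 2 / 2 with hη
  have hη0 : 0 < η := by positivity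
  have hsub : ∀ z ∈ ball (0 : V n) 1, ‖(inner ℂ p z : ℂ) - 1‖ < η → z ∈ ball (0 : V n) 1 ∩ O := by
    intro z hz h1
    refine ⟨hz, hsO ?_⟩
    rw [mem_ball, dist_eq_norm]
    have hz1 : ‖z‖ < 1 := mem_ball_zero_iff.1 hz
    have h2 : ‖z - p‖ ^ 2 = ‖z‖ ^ 2 - 2 * (inner ℂ z p : ℂ).re + ‖p‖ ^ 2 := by
      have := @norm_sub_sq ℂ (V n) _ _ _ z p
      simpa using this
    have h3 : (inner ℂ z p : ℂ).re = (inner ℂ p z : ℂ).re := by
      rw [← inner_conj_symm, Complex.conj_re]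
    have h4 : 1 - (inner ℂ p z : ℂ).re < η := by
      have := Complex.abs_re_le_norm ((inner ℂ p z : ℂ) - 1)
      rw [Complex.sub_re, Complex.one_re] at this
      have h5 := neg_abs_le ((inner ℂ p z : ℂ).re - 1)
      linarith
    have h5 : ‖z - p‖ ^ 2 < s ^ 2 := by
      rw [h2, h3, hp]
      nlinarith [norm_nonneg z]
    exact lt_of_pow_lt_pow_left₀ 2 hs.le h5
  obtain ⟨K, r, hK, hr, hG⟩ := Pool.Agent.TH310.Cor.lgV hη0
  set M' : ℝ := max M 1 with hM'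
  have hM'0 : 0 < M' := lt_max_of_lt_right one_pos
  obtain ⟨G, hGd, hGb, hGa⟩ := hG n p hp (fun z => (M' : ℂ)⁻¹ * F z)
    ((hF.mono fun z hz => hsub z hz.1 hz.2).const_mul _) (fun z hz h1 => by
      rw [norm_mul, norm_inv, Complex.norm_real, Real.norm_of_nonneg hM'0.le,
        inv_mul_le_iff₀ hM'0, mul_one]
      exact (hM z (hsub z hz h1)).trans (le_max_left _ _))
  refine ⟨mkH (fun z => (M' : ℂ) * G z) (hGd.const_mul _) (M' * K) (fun z hz => ?_), ?_⟩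
  · rw [norm_mul, Complex.norm_real, Real.norm_of_nonneg hM'0.le]
    gcongr
    exact hGb z hz
  · intro ε hε
    have hc : Tendsto (fun z : V n => ‖(inner ℂ p z : ℂ) - 1‖) (𝓝 p) (𝓝 0) := by
      have h1 : Continuous fun z : V n => ‖(inner ℂ p z : ℂ) - 1‖ := by fun_prop
      have h2 := h1.tendsto p
      have h3 : (inner ℂ p p : ℂ) = 1 := by
        rw [inner_self_eq_norm_sq_to_K, hp]; simp
      rw [h3, sub_self, norm_zero] at h2
      exact h2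
    have h1 : ∀ᶠ z in 𝓝 p, ‖(inner ℂ p z : ℂ) - 1‖ < r (ε / M') :=
      hc.eventually (gt_mem_nhds (hr _ (by positivity)))
    have h2 : ∀ᶠ z : ball (0 : V n) 1 in nr p, ‖(inner ℂ p (z : V n) : ℂ) - 1‖ < r (ε / M') := by
      rw [← nr_nhdsWithin (P := fun z : V n => ‖(inner ℂ p z : ℂ) - 1‖ < r (ε / M'))]
      exact nhdsWithin_le_nhds h1
    filter_upwards [h2] with z hz
    have h3 := hGa (ε / M') (by positivity) z z.2 hz
    have h4 : evH z (mkH (fun z => (M' : ℂ) * G z) (hGd.const_mul _) (M' * K) (fun z hz => by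
        rw [norm_mul, Complex.norm_real, Real.norm_of_nonneg hM'0.le]
        gcongr
        exact hGb z hz)) = M' * G z := rfl
    have hne : (M' : ℂ) ≠ 0 := by exact_mod_cast hM'0.ne'
    have h5 : (M' : ℂ) * G z - F z = M' * (G z - (M' : ℂ)⁻¹ * F z) := by
      field_simp
    rw [h4, h5, norm_mul, Complex.norm_real, Real.norm_of_nonneg hM'0.le]
    rw [le_div_iff₀ hM'0] at h3
    linarith

theorem quasi_QA {p : V n} (hp : ‖p‖ = 1) {q : Hb (V n)} {f : V n → ℂ}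
    (hqf : ∀ z : ball (0 : V n) 1, evH z q = f z) (h : Quasi p f) : q ∈ QA p := by
  intro ε hε
  obtain ⟨O, F, hO, hFd, hFb⟩ := h (ε / 2) (by positivity)
  obtain ⟨G, hG⟩ := loc_glob hp hO hFd (M := ‖q‖ + ε / 2) (fun z hz => by
    have h1 := hFb z hz
    have h2 : ‖f z‖ ≤ ‖q‖ := by
      rw [← hqf ⟨z, hz.1⟩]
      exact evH_le _ q
    have h3 : F z = (F z - starRingEnd ℂ (f z)) + starRingEnd ℂ (f z) := by ring
    rw [h3]
    refine (norm_add_le _ _).trans ?_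
    rw [RCLike.norm_conj]
    linarith)
  refine ⟨G, ?_⟩
  have h1 : ∀ᶠ z : ball (0 : V n) 1 in nr p, (z : V n) ∈ O := by
    rw [← nr_nhdsWithin (P := fun z => z ∈ O)]
    exact nhdsWithin_le_nhds hO
  filter_upwards [hG (ε / 2) (by positivity), h1] with z h2 h3
  have h4 := hFb z ⟨z.2, h3⟩
  rw [hqf]
  have e : evH z G - starRingEnd ℂ (f z) = (evH z G - F z) + (F z - starRingEnd ℂ (f z)) := by ring
  rw [e]
  exact (norm_add_le _ _).trans (by linarith)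

/-- the cluster set of `q` at `p` -/
def Clus (p : V n) (q : V n → ℂ) : Set ℂ := {w | MapClusterPt w (𝓝[ball 0 1] p) q}

theorem null_quasi {p : V n} {q : V n → ℂ} (hq : BH q) (h0 : volume (Clus p q) = 0) :
    Quasi p q := by
  intro ε hε
  obtain ⟨hqd, M, hM⟩ := hq
  have hcl : IsClosed (Clus p q) := isClosed_setOfPred_clusterPt
  have hev : ∀ᶠ z in 𝓝[ball 0 1] p, q z ∈ closedBall (0 : ℂ) M := by
    filter_upwards [self_mem_nhdsWithin] with z hz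
    exact mem_closedBall_zero_iff.2 (hM z hz)
  have hsub : Clus p q ⊆ closedBall 0 M := by
    intro w hw
    exact isClosed_closedBall.mem_of_mapClusterPt hw hev
  have hcomp : IsCompact (Clus p q) := (isCompact_closedBall 0 M).of_isClosed_subset hcl hsub
  obtain ⟨U, F, hU, hKU, hFd, hFe⟩ := hartogs_rosenthal hcomp h0 hε
  have hevU : ∀ᶠ z in 𝓝[ball 0 1] p, q z ∈ U := by
    by_contra hcon
    have hfr : ∃ᶠ z in 𝓝[ball 0 1] p, q z ∈ closedBall (0 : ℂ) M \ U := by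
      rw [Filter.not_eventually] at hcon
      exact (hcon.and_eventually hev).mono fun z hz => ⟨hz.2, hz.1⟩
    obtain ⟨w, hw, hw2⟩ := ((isCompact_closedBall (0 : ℂ) M).diff hU).exists_mapClusterPt_of_frequently hfr
    exact hw.2 (hKU hw2)
  obtain ⟨O, hO, hpO, hOsub⟩ := mem_nhdsWithin.1 hevU
  refine ⟨O, F ∘ q, hO.mem_nhds hpO, ?_, ?_⟩
  · refine hFd.comp (hqd.mono inter_subset_left) ?_
    intro z hz
    exact hOsub ⟨hz.2, hz.1⟩
  · intro z hz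
    exact hFe _ (hOsub ⟨hz.2, hz.1⟩)

/-- passage to elements of `H^∞` -/
theorem adj {p : V n} (hp : ‖p‖ = 1) {v : V n → ℂ}
    (hv : v ∈ Algebra.adjoin ℂ (Fib ∪ {q | BH q ∧ Quasi p q})) :
    ∃ v' ∈ Algebra.adjoin ℂ (SR (SF (V n)) ∪ QA p), ∀ z : ball (0 : V n) 1, evH z v' = v z := by
  induction hv using Algebra.adjoin_induction with
  | mem x hx =>
    rcases hx with ⟨u, ψ, hu, ⟨M, hM⟩, hψ, rfl⟩ | ⟨⟨hd, M, hM⟩, hq⟩
    · refine ⟨mkH (fun z => u (ψ z)) (hu.comp hψ.1 fun z hz => mem_ball_zero_iff.2 (hψ.2.1 z hz)) M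
        (fun z hz => hM _ (mem_ball_zero_iff.2 (hψ.2.1 z hz))), ?_, fun z => rfl⟩
      refine Algebra.subset_adjoin (Or.inl ⟨fun z => u (ψ z), ?_, fun z => rfl⟩)
      exact ⟨u, ψ, hu, ⟨M, hM⟩, ⟨⟨hψ.1, hψ.2.2⟩, hψ.2.1⟩, fun z _ => rfl⟩
    · refine ⟨mkH x hd M hM, ?_, fun z => rfl⟩
      exact Algebra.subset_adjoin (Or.inr (quasi_QA hp (fun z => rfl) hq))
  | algebraMap r =>
    refine ⟨algebraMap ℂ _ r, Subalgebra.algebraMap_mem _ r, fun z => ?_⟩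
    have := (evH z).commutes r
    simpa using this
  | add x y _ _ hx hy =>
    obtain ⟨x', h1, h2⟩ := hx
    obtain ⟨y', h3, h4⟩ := hy
    exact ⟨x' + y', Subalgebra.add_mem _ h1 h3, fun z => by rw [map_add, h2, h4]; rfl⟩
  | mul x y _ _ hx hy =>
    obtain ⟨x', h1, h2⟩ := hx
    obtain ⟨y', h3, h4⟩ := hy
    exact ⟨x' * y', Subalgebra.mul_mem _ h1 h3, fun z => by rw [map_mul, h2, h4]; rfl⟩

/-- **The local criterion.** -/
theorem criterion {N : ℕ} (f : Fin N → V n → ℂ) (hf : ∀ j, BH (f j))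
    (h0 : ∀ z ∈ ball (0 : V n) 1, ∃ j, f j z ≠ 0)
    (hloc : ∀ p : V n, ‖p‖ = 1 → ∃ (S : Finset (Fin N)) (c : ℝ), 0 < c ∧
      (∀ᶠ z in 𝓝[ball 0 1] p, c ≤ ∑ j ∈ S, ‖f j z‖) ∧
      ∀ ε : ℝ, 0 < ε → ∀ j ∈ S, ∃ v ∈ Algebra.adjoin ℂ (Fib ∪ {q | BH q ∧ Quasi p q}),
        ∀ᶠ z in 𝓝[ball 0 1] p, ‖f j z - v z‖ ≤ ε) :
    ∃ g : Fin N → V n → ℂ, (∀ j, BH (g j)) ∧
      ∀ z ∈ ball (0 : V n) 1, ∑ j, f j z * g j z = 1 := by
  choose hfd Mf hMf using hf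
  obtain ⟨g, hg⟩ := crit (fun j => mkH (f j) (hfd j) (Mf j) (hMf j)) (fun z => h0 z z.2) (by
    intro p hp
    obtain ⟨S, c, hc, h1, h2⟩ := hloc p hp
    refine ⟨S, c, hc, ?_, ?_⟩
    · rw [nr_nhdsWithin] at h1
      exact h1
    · intro ε hε j hj
      obtain ⟨v, hv, hv2⟩ := h2 ε hε j hj
      obtain ⟨v', hv', hvv⟩ := adj hp hv
      refine ⟨v', hv', ?_⟩
      rw [nr_nhdsWithin] at hv2
      filter_upwards [hv2] with z hz
      rw [hvv]
      exact hz)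
  have hrep : ∀ j, ∃ G : V n → ℂ, DifferentiableOn ℂ G (ball 0 1) ∧
      ∀ z : ball (0 : V n) 1, evH z (g j) = G z := by
    intro j
    obtain ⟨G, hG1, hG2⟩ := (g j).2
    exact ⟨G, hG1, hG2⟩
  choose G hG1 hG2 using hrep
  refine ⟨G, fun j => ⟨hG1 j, ‖g j‖, fun z hz => ?_⟩, fun z hz => ?_⟩
  · rw [← hG2 j ⟨z, hz⟩]
    exact evH_le _ _
  · have h1 := congrArg (evH ⟨z, hz⟩) hg
    rw [map_sum, map_one] at h1
    rw [← h1]
    refine Finset.sum_congr rfl fun j _ => ?_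
    rw [map_mul, hG2 j ⟨z, hz⟩]
    rfl

/-- bounded holomorphic functions form an algebra -/
theorem adj_BH {T : Set (V n → ℂ)} (hT : ∀ q ∈ T, BH q) {v : V n → ℂ}
    (hv : v ∈ Algebra.adjoin ℂ T) : BH v := by
  induction hv using Algebra.adjoin_induction with
  | mem x hx => exact hT x hx
  | algebraMap r =>
    exact ⟨differentiableOn_const _, ‖r‖, fun z _ => le_rfl⟩
  | add x y _ _ hx hy =>
    obtain ⟨x1, M, x2⟩ := hx
    obtain ⟨y1, M', y2⟩ := hy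
    exact ⟨x1.add y1, M + M', fun z hz => (norm_add_le _ _).trans (add_le_add (x2 z hz) (y2 z hz))⟩
  | mul x y _ _ hx hy =>
    obtain ⟨x1, M, x2⟩ := hx
    obtain ⟨y1, M', y2⟩ := hy
    refine ⟨x1.mul y1, M * M', fun z hz => ?_⟩
    rw [Pi.mul_apply, norm_mul]
    exact mul_le_mul (x2 z hz) (y2 z hz) (norm_nonneg _) ((norm_nonneg _).trans (x2 z hz))

theorem fib_BH {f : V n → ℂ} (hf : f ∈ Fib) : BH f := by
  obtain ⟨u, ψ, hu, ⟨M, hM⟩, hψ, rfl⟩ := hf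
  exact ⟨hu.comp hψ.1 fun z hz => mem_ball_zero_iff.2 (hψ.2.1 z hz), M,
    fun z hz => hM _ (mem_ball_zero_iff.2 (hψ.2.1 z hz))⟩

/-- **The closed algebra.** -/
theorem closed_alg {N : ℕ} (f : Fin N → V n → ℂ) (δ : ℝ) (hfd : ∀ j, DifferentiableOn ℂ (f j) (ball 0 1))
    (hf : ∀ j, ∀ ε : ℝ, 0 < ε → ∃ u ∈ Algebra.adjoin ℂ (Fib ∪
      {q : V n → ℂ | BH q ∧ ∀ p : V n, ‖p‖ = 1 → volume (Clus p q) = 0}),
        ∀ z ∈ ball (0 : V n) 1, ‖f j z - u z‖ ≤ ε)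
    (hδ : 0 < δ) (hlow : ∀ z ∈ ball (0 : V n) 1, δ ≤ ∑ j, ‖f j z‖) :
    ∃ g : Fin N → V n → ℂ, (∀ j, BH (g j)) ∧
      ∀ z ∈ ball (0 : V n) 1, ∑ j, f j z * g j z = 1 := by
  refine criterion f (fun j => ⟨hfd j, ?_⟩) (fun z hz => ?_) (fun p hp => ?_)
  · obtain ⟨u, hu, hu2⟩ := hf j 1 one_pos
    obtain ⟨-, M, hM⟩ := adj_BH (fun q hq => by
      rcases hq with hq | hq
      · exact fib_BH hq
      · exact hq.1) hu
    refine ⟨1 + M, fun z hz => ?_⟩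
    have e : f j z = (f j z - u z) + u z := by ring
    rw [e]
    exact (norm_add_le _ _).trans (add_le_add (hu2 z hz) (hM z hz))
  · by_contra hcon
    push Not at hcon
    have := hlow z hz
    simp only [hcon, norm_zero, Finset.sum_const_zero] at this
    linarith
  · refine ⟨Finset.univ, δ, hδ, ?_, fun ε hε j _ => ?_⟩
    · filter_upwards [self_mem_nhdsWithin] with z hz
      exact hlow z hz
    · obtain ⟨u, hu, hu2⟩ := hf j ε hε
      refine ⟨u, Algebra.adjoin_mono ?_ hu, ?_⟩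
      · refine union_subset_union_right _ fun q hq => ?_
        exact ⟨hq.1, null_quasi hq.1 (hq.2 p hp)⟩
      · filter_upwards [self_mem_nhdsWithin] with z hz
        exact hu2 z hz

end Pool.Agent.K9h23.Qc
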